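import Pool.Agent.Run7.h944.BS.B8
import Pool.Agent.W136.RF.Ap

/-! The distance to a bounded function is almost surely infinite -/

set_option autoImplicit false

namespace Run7.h944.BS

open Finset MeasureTheory Filter
open Pool.Agent.W136.RF (ae_tendsto)

variable {Ω : Type*} [MeasurableSpace Ω]

/-- the sum of the reciprocals of the primes up to `X` -/
noncomputable def MM (X : ℕ) : ℝ := ∑ p ∈ (Icc 1 X).filter Nat.Prime, (1 : ℝ) / p

theorem MM_tendsto : Tendsto MM atTop atTop := by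
  classical
  have h1 : ¬ Summable (Set.indicator {p : ℕ | p.Prime} (fun n : ℕ => (1 : ℝ) / n)) :=
    not_summable_one_div_on_primes
  have h0 : ∀ n : ℕ, 0 ≤ Set.indicator {p : ℕ | p.Prime} (fun n : ℕ => (1 : ℝ) / n) n := by
    intro n
    apply Set.indicator_nonneg
    intro n _
    positivity
  rw [not_summable_iff_tendsto_nat_atTop_of_nonneg h0] at h1
  have h2 : ∀ X : ℕ, MM X = ∑ n ∈ range (X + 1),
      Set.indicator {p : ℕ | p.Prime} (fun n : ℕ => (1 : ℝ) / n) n := by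
    intro X
    unfold MM
    simp only [Set.indicator_apply, Set.mem_ofPred_eq]
    rw [← sum_filter]
    apply sum_congr _ fun _ _ => rfl
    ext p
    simp only [mem_filter, mem_Icc, mem_range]
    constructor
    · rintro ⟨⟨_, h⟩, hp⟩
      exact ⟨by omega, hp⟩
    · rintro ⟨h, hp⟩
      exact ⟨⟨hp.pos, by omega⟩, hp⟩
  have h3 : Tendsto (fun X : ℕ => ∑ n ∈ range (X + 1),
      Set.indicator {p : ℕ | p.Prime} (fun n : ℕ => (1 : ℝ) / n) n) atTop atTop :=
    h1.comp (tendsto_add_atTop_nat 1)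
  exact h3.congr fun X => (h2 X).symm

theorem near_sum (s X p : ℕ) (hp : 1 ≤ p) :
    ∑ q ∈ (Icc 1 X).filter (fun q => q ≤ 2 ^ s * p ∧ p ≤ 2 ^ s * q), (1 : ℝ) / q ≤ 4 ^ s := by
  have hp0 : (0 : ℝ) < p := by exact_mod_cast hp
  have h1 : ∀ q ∈ (Icc 1 X).filter (fun q => q ≤ 2 ^ s * p ∧ p ≤ 2 ^ s * q), (1 : ℝ) / q ≤ 2 ^ s / p := by
    intro q hq
    rw [mem_filter, mem_Icc] at hq
    have hq0 : (0 : ℝ) < q := by exact_mod_cast hq.1.1
    rw [div_le_div_iff₀ hq0 hp0, one_mul]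
    exact_mod_cast hq.2.2
  refine (sum_le_sum h1).trans ?_
  rw [sum_const, nsmul_eq_mul]
  have h2 : ((Icc 1 X).filter (fun q => q ≤ 2 ^ s * p ∧ p ≤ 2 ^ s * q)).card ≤ 2 ^ s * p := by
    calc _ ≤ (Icc 1 (2 ^ s * p)).card := by
          apply card_le_card
          intro q hq
          rw [mem_filter, mem_Icc] at hq
          rw [mem_Icc]
          exact ⟨hq.1.1, hq.2.1⟩
      _ = 2 ^ s * p := by rw [Nat.card_Icc]; omega
  have h3 : (((Icc 1 X).filter (fun q => q ≤ 2 ^ s * p ∧ p ≤ 2 ^ s * q)).card : ℝ) ≤ 2 ^ s * p := by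
    exact_mod_cast h2
  calc _ ≤ (2 ^ s * p : ℝ) * (2 ^ s / p) := mul_le_mul_of_nonneg_right h3 (by positivity)
    _ = 2 ^ s * 2 ^ s := by field_simp
    _ = 4 ^ s := by rw [← mul_pow]; norm_num

theorem second2 {P : Measure Ω} [IsProbabilityMeasure P] {e : ℕ → Ω → ℝ} (hm : ∀ p, Measurable (e p))
    (he : ∀ p ω, e p ω = 1 ∨ e p ω = -1) (hdc : Dc P e) :
    ∃ C θ : ℝ, 0 ≤ C ∧ 0 < θ ∧ ∀ (s X : ℕ) (r : ℕ → ℝ), (∀ p, |r p| ≤ 1) →
      ∫ ω, (∑ p ∈ (Icc 1 X).filter Nat.Prime, e p ω * r p / p) ^ 2 ∂P ≤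
        C * Real.exp (-θ * s) * MM X ^ 2 + 4 ^ s * MM X := by
  classical
  obtain ⟨C, θ, hθ, hdc⟩ := hdc
  have hC0 : 0 ≤ C := by
    have h1 := hdc 0 0 ∅ 2 Nat.prime_two (by norm_num) (by simp)
    have h2 := (abs_nonneg _).trans h1
    simp only [card_empty, Nat.cast_zero, add_zero, mul_one, mul_zero, Real.exp_zero] at h2
    linarith
  refine ⟨4 * C, θ, by positivity, hθ, ?_⟩
  intro s X r hr
  have habs : ∀ p ω, |e p ω| = 1 := by
    intro p ω
    rcases he p ω with h | h <;> rw [h] <;> simp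
  have hint : ∀ p q, Integrable (fun ω => e p ω * e q ω) P := by
    intro p q
    apply Integrable.of_bound ((hm p).mul (hm q)).aestronglyMeasurable 1
    apply Eventually.of_forall
    intro ω
    change |e p ω * e q ω| ≤ 1
    rw [abs_mul, habs, habs, one_mul]
  have hw1 : ∀ p q, |∫ ω, e p ω * e q ω ∂P| ≤ 1 := by
    intro p q
    have := norm_integral_le_of_norm_le_const (μ := P) (f := fun ω => e p ω * e q ω) (C := 1)
      (Eventually.of_forall fun ω => by
        rw [Real.norm_eq_abs, abs_mul, habs, habs, one_mul])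
    simpa using this
  have hfar : ∀ p q : ℕ, p.Prime → q.Prime → 2 ^ s * p < q →
      |∫ ω, e p ω * e q ω ∂P| ≤ 4 * C * Real.exp (-θ * s) := by
    intro p q hp hq h
    have h1 := hdc s s {p} q hq (by
      have := hp.two_le
      nlinarith [Nat.one_le_two_pow (n := s)]) (by
      intro p' hp'
      rw [mem_singleton] at hp'
      subst hp'
      exact ⟨hp, h⟩)
    simp only [prod_singleton, card_singleton, Nat.cast_one] at h1
    linarith
  have hexp : ∀ ω, (∑ p ∈ (Icc 1 X).filter Nat.Prime, e p ω * r p / p) ^ 2 =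
      ∑ p ∈ (Icc 1 X).filter Nat.Prime, ∑ q ∈ (Icc 1 X).filter Nat.Prime,
        (r p / p * (r q / q)) * (e p ω * e q ω) := by
    intro ω
    rw [sq, sum_mul_sum]
    apply sum_congr rfl
    intro p _
    apply sum_congr rfl
    intro q _
    ring
  simp only [hexp]
  rw [integral_finsetSum]
  swap
  · intro p _
    apply integrable_finsetSum
    intro q _
    exact (hint p q).const_mul _
  have hterm : ∀ p ∈ (Icc 1 X).filter Nat.Prime, ∀ q ∈ (Icc 1 X).filter Nat.Prime,
      ∫ ω, (r p / p * (r q / q)) * (e p ω * e q ω) ∂P ≤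
        (1 / p * (1 / q)) * (4 * C * Real.exp (-θ * s)) +
          1 / p * (if q ≤ 2 ^ s * p ∧ p ≤ 2 ^ s * q then (1 : ℝ) / q else 0) := by
    intro p hp q hq
    rw [mem_filter, mem_Icc] at hp hq
    have hp0 : (0 : ℝ) < p := by exact_mod_cast hp.1.1
    have hq0 : (0 : ℝ) < q := by exact_mod_cast hq.1.1
    rw [integral_const_mul]
    have h4 : |r p / p * (r q / q)| ≤ 1 / p * (1 / q) := by
      rw [abs_mul, abs_div, abs_div, abs_of_pos hq0, abs_of_pos hp0]
      exact mul_le_mul (div_le_div_of_nonneg_right (hr p) hp0.le)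
        (div_le_div_of_nonneg_right (hr q) hq0.le) (by positivity) (by positivity)
    have h6 : r p / p * (r q / q) * ∫ ω, e p ω * e q ω ∂P ≤
        (1 / p * (1 / q)) * |∫ ω, e p ω * e q ω ∂P| := by
      calc r p / p * (r q / q) * ∫ ω, e p ω * e q ω ∂P
          ≤ |r p / p * (r q / q) * ∫ ω, e p ω * e q ω ∂P| := le_abs_self _
        _ = |r p / p * (r q / q)| * |∫ ω, e p ω * e q ω ∂P| := abs_mul _ _
        _ ≤ _ := mul_le_mul_of_nonneg_right h4 (abs_nonneg _)
    refine h6.trans ?_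
    have hpq : (0 : ℝ) ≤ 1 / p * (1 / q) := by positivity
    have hE : 0 ≤ 4 * C * Real.exp (-θ * s) := by positivity
    split_ifs with hif
    · have := mul_le_mul_of_nonneg_left (hw1 p q) hpq
      have := mul_nonneg hpq hE
      linarith
    · rw [mul_zero, add_zero]
      apply mul_le_mul_of_nonneg_left _ hpq
      rw [not_and_or, not_le, not_le] at hif
      rcases hif with hif | hif
      · exact hfar p q hp.2 hq.2 hif
      · have := hfar q p hq.2 hp.2 hif
        simp only [mul_comm (e p _)]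
        exact this
  calc ∑ p ∈ (Icc 1 X).filter Nat.Prime, ∫ ω, ∑ q ∈ (Icc 1 X).filter Nat.Prime,
        (r p / p * (r q / q)) * (e p ω * e q ω) ∂P
      ≤ ∑ p ∈ (Icc 1 X).filter Nat.Prime, ∑ q ∈ (Icc 1 X).filter Nat.Prime,
        ((1 / p * (1 / q)) * (4 * C * Real.exp (-θ * s)) +
          1 / p * (if q ≤ 2 ^ s * p ∧ p ≤ 2 ^ s * q then (1 : ℝ) / q else 0)) := by
        apply sum_le_sum
        intro p hp
        rw [integral_finsetSum _ (fun q _ => (hint p q).const_mul _)]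
        exact sum_le_sum fun q hq => hterm p hp q hq
    _ = 4 * C * Real.exp (-θ * s) * MM X ^ 2 + ∑ p ∈ (Icc 1 X).filter Nat.Prime, (1 : ℝ) / p *
        ∑ q ∈ (Icc 1 X).filter Nat.Prime, (if q ≤ 2 ^ s * p ∧ p ≤ 2 ^ s * q then (1 : ℝ) / q else 0) := by
        simp only [sum_add_distrib]
        congr 1
        · unfold MM
          rw [sq, sum_mul_sum, mul_sum]
          apply sum_congr rfl
          intro p _
          rw [mul_sum]
          apply sum_congr rfl
          intro q _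
          ring
        · apply sum_congr rfl
          intro p _
          rw [mul_sum]
    _ ≤ 4 * C * Real.exp (-θ * s) * MM X ^ 2 + ∑ p ∈ (Icc 1 X).filter Nat.Prime, (1 : ℝ) / p * 4 ^ s := by
        refine add_le_add (le_refl _) (sum_le_sum fun p hp => ?_)
        rw [mem_filter, mem_Icc] at hp
        apply mul_le_mul_of_nonneg_left _ (by positivity)
        refine le_trans ?_ (near_sum s X p hp.1.1)
        rw [sum_filter]
        conv_rhs => rw [sum_filter]
        apply sum_le_sum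
        intro q _
        by_cases hq : q.Prime
        · rw [if_pos hq]
        · rw [if_neg hq]
          split_ifs <;> positivity
    _ = 4 * C * Real.exp (-θ * s) * MM X ^ 2 + 4 ^ s * MM X := by
        unfold MM
        rw [← sum_mul]
        ring

theorem dist2 {P : Measure Ω} [IsProbabilityMeasure P] {e : ℕ → Ω → ℝ} (hm : ∀ p, Measurable (e p))
    (he : ∀ p ω, e p ω = 1 ∨ e p ω = -1) (hdc : Dc P e) (r : ℕ → ℝ) (hr : ∀ p, |r p| ≤ 1) :
    ∀ᵐ ω ∂P, Tendsto (fun X : ℕ => ∑ p ∈ (Icc 1 X).filter Nat.Prime, (1 - e p ω * r p) / p)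
      atTop atTop := by
  obtain ⟨C, θ, hC, hθ, hsec⟩ := second2 hm he hdc
  have habs : ∀ p ω, |e p ω| = 1 := by
    intro p ω
    rcases he p ω with h | h <;> rw [h] <;> simp
  have hex : ∀ k : ℕ, ∃ X : ℕ, (k : ℝ) + 1 ≤ MM X ∧
      ∫ ω, ((∑ p ∈ (Icc 1 X).filter Nat.Prime, e p ω * r p / p) / MM X) ^ 2 ∂P ≤ (1 / 2 : ℝ) ^ k := by
    intro k
    have h2k : (0 : ℝ) < (1 / 2 : ℝ) ^ k / 2 := by positivity
    obtain ⟨s, hs⟩ : ∃ s : ℕ, C * Real.exp (-θ * s) ≤ (1 / 2 : ℝ) ^ k / 2 := by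
      have h1 : Tendsto (fun s : ℕ => C * Real.exp (-θ * s)) atTop (nhds (C * 0)) := by
        apply Tendsto.const_mul
        apply Real.tendsto_exp_atBot.comp
        apply Tendsto.const_mul_atTop_of_neg (by linarith) tendsto_natCast_atTop_atTop
      rw [mul_zero] at h1
      obtain ⟨s, hs⟩ := (h1.eventually (gt_mem_nhds h2k)).exists
      exact ⟨s, hs.le⟩
    obtain ⟨X, hX⟩ := (MM_tendsto.eventually_ge_atTop (max ((k : ℝ) + 1) (4 ^ s * 2 * 2 ^ k))).exists
    have hX1 := (le_max_left _ _).trans hX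
    have hX2 := (le_max_right _ _).trans hX
    refine ⟨X, hX1, ?_⟩
    have hM0 : 0 < MM X := by
      have : (0 : ℝ) ≤ k := Nat.cast_nonneg k
      linarith
    simp only [div_pow]
    rw [integral_div, div_le_iff₀ (by positivity)]
    refine (hsec s X r hr).trans ?_
    have h3 : (4 : ℝ) ^ s ≤ (1 / 2 : ℝ) ^ k / 2 * MM X := by
      have h4 : (1 / 2 : ℝ) ^ k / 2 * (4 ^ s * 2 * 2 ^ k) = 4 ^ s := by
        rw [one_div_pow]
        field_simp
      calc (4 : ℝ) ^ s = (1 / 2 : ℝ) ^ k / 2 * (4 ^ s * 2 * 2 ^ k) := h4.symm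
        _ ≤ _ := mul_le_mul_of_nonneg_left hX2 h2k.le
    calc C * Real.exp (-θ * s) * MM X ^ 2 + 4 ^ s * MM X
        ≤ (1 / 2 : ℝ) ^ k / 2 * MM X ^ 2 + ((1 / 2 : ℝ) ^ k / 2 * MM X) * MM X :=
          add_le_add (mul_le_mul_of_nonneg_right hs (sq_nonneg _))
            (mul_le_mul_of_nonneg_right h3 hM0.le)
      _ = 1 ^ k / 2 ^ k * MM X ^ 2 := by rw [← div_pow]; ring
  choose Xs hXs1 hXs2 using hex
  have hSm : ∀ X : ℕ, Measurable (fun ω => ∑ p ∈ (Icc 1 X).filter Nat.Prime, e p ω * r p / p) := by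
    intro X
    apply Finset.measurable_fun_sum
    intro p _
    exact ((hm p).mul_const _).div_const _
  have h4 := ae_tendsto (P := P) (fun k ω =>
      ((∑ p ∈ (Icc 1 (Xs k)).filter Nat.Prime, e p ω * r p / p) / MM (Xs k)) ^ 2)
    (fun k => by
      apply Integrable.of_bound (((hSm (Xs k)).div_const _).pow_const 2).aestronglyMeasurable
        ((MM (Xs k) / |MM (Xs k)|) ^ 2)
      apply Eventually.of_forall
      intro ω
      rw [norm_pow, norm_div, Real.norm_eq_abs, Real.norm_eq_abs]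
      apply pow_le_pow_left₀ (by positivity)
      apply div_le_div_of_nonneg_right _ (abs_nonneg _)
      refine (abs_sum_le_sum_abs _ _).trans (sum_le_sum fun p _ => ?_)
      rw [abs_div, Nat.abs_cast, abs_mul, habs, one_mul]
      exact div_le_div_of_nonneg_right (hr p) (Nat.cast_nonneg _))
    (fun k ω => sq_nonneg _)
    (fun k => ((hSm (Xs k)).div_const _).pow_const 2)
    (fun k => (1 / 2 : ℝ) ^ k) (summable_geometric_of_lt_one (by norm_num) (by norm_num)) hXs2
  filter_upwards [h4] with ω hω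
  have hmono : Monotone (fun X : ℕ => ∑ p ∈ (Icc 1 X).filter Nat.Prime, (1 - e p ω * r p) / p) := by
    intro X Y hXY
    apply sum_le_sum_of_subset_of_nonneg
    · intro p hp
      simp only [mem_filter, mem_Icc] at hp ⊢
      exact ⟨⟨hp.1.1, hp.1.2.trans hXY⟩, hp.2⟩
    · intro p _ _
      apply div_nonneg _ (Nat.cast_nonneg _)
      have : |e p ω * r p| ≤ 1 := by rw [abs_mul, habs, one_mul]; exact hr p
      linarith [(abs_le.1 this).2]
  apply tendsto_atTop_atTop_of_monotone hmono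
  intro B
  have h5 := hω.eventually (gt_mem_nhds (show (0 : ℝ) < 1 / 4 by norm_num))
  obtain ⟨k0, hk0⟩ := exists_nat_ge (2 * B)
  obtain ⟨k, hk, hkk⟩ := (h5.and (eventually_ge_atTop k0)).exists
  refine ⟨Xs k, ?_⟩
  have hM := hXs1 k
  have hM0 : 0 < MM (Xs k) := by
    have : (0 : ℝ) ≤ k := Nat.cast_nonneg k
    linarith
  obtain ⟨S, hS⟩ : ∃ S : ℝ, S = ∑ p ∈ (Icc 1 (Xs k)).filter Nat.Prime, e p ω * r p / p := ⟨_, rfl⟩
  rw [← hS] at hk
  have h6 : |S / MM (Xs k)| < 1 / 2 := by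
    apply abs_lt_of_sq_lt_sq _ (by norm_num)
    calc (S / MM (Xs k)) ^ 2 < 1 / 4 := hk
      _ = (1 / 2) ^ 2 := by norm_num
  have h7 : S < 1 / 2 * MM (Xs k) := by
    have := (abs_lt.1 h6).2
    rwa [div_lt_iff₀ hM0] at this
  have h8 : ∑ p ∈ (Icc 1 (Xs k)).filter Nat.Prime, (1 - e p ω * r p) / p = MM (Xs k) - S := by
    rw [hS]
    unfold MM
    rw [← sum_sub_distrib]
    apply sum_congr rfl
    intro p _
    ring
  rw [h8]
  have h9 : (k0 : ℝ) ≤ k := by exact_mod_cast hkk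
  linarith

end Run7.h944.BS
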